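import Pool.Agent.Y553.ETL.Prog

/-!
# Every ET0L language is generated by a program which rewrites one letter at a time
-/

namespace Pool.Agent.Y553.ETL

variable {α : Type}

section
open Classical

/-- Letters of the program: `(c, b)` is the letter `c` on side `b`, `inr a` is a terminal letter,
`none` is the dead letter. -/
abbrev ET0L.DN (G : ET0L α) : Type := Option ((G.V × Bool) ⊕ α)

/-- Phases: `none` is final, `some (b, none)` means that the word is on side `b`,
`some (b, some (j, S))` that the letters of `S` have been processed (`j = none`: finishing). -/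
abbrev ET0L.DP (G : ET0L α) : Type := Option (Bool × Option (Option G.I × Finset G.V))

abbrev ET0L.DE (G : ET0L α) : Type :=
  (Bool × Option G.I) ⊕
    ({x : Bool × Option G.I × Finset G.V × G.V // x.2.2.2 ∉ x.2.2.1}) ⊕
      (Bool × G.I) ⊕ Bool

abbrev ET0L.sd {G : ET0L α} (b : Bool) (c : G.V) : G.DN := some (Sum.inl (c, b))

noncomputable def ET0L.fin (G : ET0L α) (c : G.V) : G.DN :=
  if h : ∃ a, G.ι a = c then some (Sum.inr h.choose) else none

noncomputable def ET0L.prod (G : ET0L α) (b : Bool) : Option G.I → G.V → Set (List G.DN)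
  | some i, c => (List.map (ET0L.sd (!b))) '' G.h i c
  | none, c => {[G.fin c]}

noncomputable def ET0L.dact (G : ET0L α) (b : Bool) (j : Option G.I) (c : G.V) :
    G.DN → Set (List G.DN) :=
  fun y => if y = ET0L.sd b c then G.prod b j c else {[y]}

noncomputable def ET0L.part (G : ET0L α) (b : Bool) (j : Option G.I) (S : Finset G.V) :
    G.V → Set (List G.DN) :=
  fun c => if c ∈ S then G.prod b j c else {[ET0L.sd b c]}

theorem ET0L.prod_fin (G : ET0L α) (b : Bool) (j : Option G.I) (c : G.V) :
    (G.prod b j c).Finite := by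
  rcases j with _ | i
  · exact Set.finite_singleton _
  · exact (G.h_fin i c).image _

theorem ET0L.prod_ne (G : ET0L α) (b : Bool) (j : Option G.I) (c : G.V) :
    (G.prod b j c).Nonempty := by
  rcases j with _ | i
  · exact Set.singleton_nonempty _
  · exact (G.h_ne i c).image _

theorem ET0L.fin_ne (G : ET0L α) (b : Bool) (c d : G.V) : G.fin d ≠ ET0L.sd b c := by
  unfold ET0L.fin
  split_ifs <;> simp

theorem ET0L.prod_inert (G : ET0L α) (b : Bool) (j : Option G.I) (c d : G.V)
    {w : List G.DN} (hw : w ∈ G.prod b j d) : ∀ y ∈ w, y ≠ ET0L.sd b c := by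
  rcases j with _ | i
  · intro y hy
    rw [Set.mem_singleton_iff.1 hw] at hy
    rw [List.mem_singleton.1 hy]
    exact G.fin_ne b c d
  · obtain ⟨w₀, _, rfl⟩ := hw
    intro y hy
    obtain ⟨e, _, rfl⟩ := List.mem_map.1 hy
    cases b <;> simp

theorem ET0L.part_insert (G : ET0L α) (b : Bool) (j : Option G.I) (S : Finset G.V) (c : G.V)
    (hc : c ∉ S) :
    (fun d => {s | ∃ w ∈ G.part b j S d, Rw (G.dact b j c) w s}) =
      G.part b j (insert c S) := by
  funext d
  unfold ET0L.part
  by_cases hd : d ∈ S
  · rw [if_pos hd, if_pos (Finset.mem_insert_of_mem hd)]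
    ext s
    have key : ∀ w ∈ G.prod b j d, ∀ y ∈ w, G.dact b j c y = {[y]} := by
      intro w hw y hy
      unfold ET0L.dact
      rw [if_neg (G.prod_inert b j c d hw y hy)]
    constructor
    · rintro ⟨w, hw, hs⟩
      rw [hs.eq_of_fixed (key w hw)]; exact hw
    · intro hs
      exact ⟨s, hs, Rw.of_fixed (key s hs)⟩
  · rw [if_neg hd]
    by_cases hdc : d = c
    · subst hdc
      rw [if_pos (Finset.mem_insert_self _ _)]
      ext s
      constructor
      · rintro ⟨w, hw, hs⟩
        rw [Set.mem_singleton_iff.1 hw] at hs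
        have := hs.single_inv
        unfold ET0L.dact at this
        rwa [if_pos rfl] at this
      · intro hs
        refine ⟨_, rfl, Rw.single ?_⟩
        unfold ET0L.dact
        rwa [if_pos rfl]
    · rw [if_neg (by rw [Finset.mem_insert]; rintro (h | h); exacts [hdc h, hd h])]
      have key : G.dact b j c (ET0L.sd b d) = {[ET0L.sd b d]} := by
        unfold ET0L.dact
        rw [if_neg]
        intro h
        simp only [Option.some.injEq, Sum.inl.injEq, Prod.mk.injEq] at h
        exact hdc h.1
      ext s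
      constructor
      · rintro ⟨w, hw, hs⟩
        rw [Set.mem_singleton_iff.1 hw] at hs
        have := hs.single_inv
        rwa [key] at this
      · intro hs
        refine ⟨_, rfl, Rw.single ?_⟩
        rwa [key]

/-- The program. -/
noncomputable def ET0L.toProg (G : ET0L α) : Prog α where
  N := G.DN
  finN := by
    haveI := G.finV
    haveI : Finite α := Finite.of_injective G.ι G.ι_inj
    infer_instance
  ι := fun a => some (Sum.inr a)
  ι_inj := by intro a b h; simpa using h
  P := G.DP
  finP := by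
    haveI := G.finV; haveI := G.finI
    infer_instance
  E := G.DE
  finE := by
    haveI := G.finV; haveI := G.finI
    infer_instance
  src
    | Sum.inl (b, _) => some (b, none)
    | Sum.inr (Sum.inl x) => some (x.1.1, some (x.1.2.1, x.1.2.2.1))
    | Sum.inr (Sum.inr (Sum.inl (b, i))) =>
      some (b, some (some i, @Finset.univ _ (@Fintype.ofFinite _ G.finV)))
    | Sum.inr (Sum.inr (Sum.inr b)) =>
      some (b, some (none, @Finset.univ _ (@Fintype.ofFinite _ G.finV)))
  dst
    | Sum.inl (b, j) => some (b, some (j, ∅))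
    | Sum.inr (Sum.inl x) => some (x.1.1, some (x.1.2.1, insert x.1.2.2.2 x.1.2.2.1))
    | Sum.inr (Sum.inr (Sum.inl (b, _))) => some (!b, none)
    | Sum.inr (Sum.inr (Sum.inr _)) => none
  act
    | Sum.inl _ => fun y => {[y]}
    | Sum.inr (Sum.inl x) => G.dact x.1.1 x.1.2.1 x.1.2.2.2
    | Sum.inr (Sum.inr _) => fun y => {[y]}
  act_fin := by
    rintro (_ | x | _) y
    · exact Set.finite_singleton _
    · simp only [ET0L.dact]
      split_ifs
      · exact G.prod_fin _ _ _
      · exact Set.finite_singleton _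
    · exact Set.finite_singleton _
  act_ne := by
    rintro (_ | x | _) y
    · exact Set.singleton_nonempty _
    · simp only [ET0L.dact]
      split_ifs
      · exact G.prod_ne _ _ _
      · exact Set.singleton_nonempty _
    · exact Set.singleton_nonempty _
  x
    | Sum.inl _ => none
    | Sum.inr (Sum.inl x) => ET0L.sd x.1.1 x.1.2.2.2
    | Sum.inr (Sum.inr _) => none
  act_x := by
    rintro (_ | x | _) y hy
    · rfl
    · simp only [ET0L.dact]
      rw [if_neg hy]
    · rfl
  s := some (false, none)
  f := none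
  src_ne := by
    rintro (_ | x | _ | _) <;> simp
  loop := by
    rintro (_ | x | ⟨b, _⟩ | _)
    · simp
    · intro h
      simp only [Option.some.injEq, Prod.mk.injEq, true_and] at h
      exact x.2 (by rw [h]; exact Finset.mem_insert_self _ _)
    · cases b <;> simp
    · simp
  ω := G.ω.map (ET0L.sd false)
  ω_ne := by
    intro h
    exact G.ω_ne (List.map_eq_nil_iff.1 h)

/-- The invariant: what the word looks like in each phase. -/
def ET0L.DInv (G : ET0L α) : G.DP → List G.DN → Prop
  | none, u => ∃ v, Relation.ReflTransGen G.Step G.ω v ∧ u = v.map G.fin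
  | some (b, none), u => ∃ v, Relation.ReflTransGen G.Step G.ω v ∧ u = v.map (ET0L.sd b)
  | some (b, some (j, S)), u =>
      ∃ v, Relation.ReflTransGen G.Step G.ω v ∧ Rw (G.part b j S) v u

theorem ET0L.part_empty (G : ET0L α) (b : Bool) (j : Option G.I) (v : List G.V)
    (u : List G.DN) : Rw (G.part b j ∅) v u ↔ u = v.map (ET0L.sd b) := by
  have : G.part b j ∅ = fun c => {[ET0L.sd b c]} := by
    funext c
    unfold ET0L.part
    rw [if_neg (Finset.notMem_empty _)]
  rw [this]
  exact Rw.map_iff

theorem ET0L.part_univ_some (G : ET0L α) (b : Bool) (i : G.I) (v : List G.V)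
    (u : List G.DN) :
    Rw (G.part b (some i) (@Finset.univ _ (@Fintype.ofFinite _ G.finV))) v u ↔
      ∃ v', Rw (G.h i) v v' ∧ u = v'.map (ET0L.sd (!b)) := by
  have : G.part b (some i) (@Finset.univ _ (@Fintype.ofFinite _ G.finV)) =
      fun c => (List.map (ET0L.sd (!b))) '' G.h i c := by
    funext c
    unfold ET0L.part
    rw [if_pos (@Finset.mem_univ _ (@Fintype.ofFinite _ G.finV) _)]
    rfl
  rw [this]
  exact Rw.map_right

theorem ET0L.part_univ_none (G : ET0L α) (b : Bool) (v : List G.V)
    (u : List G.DN) :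
    Rw (G.part b none (@Finset.univ _ (@Fintype.ofFinite _ G.finV))) v u ↔
      u = v.map G.fin := by
  have : G.part b none (@Finset.univ _ (@Fintype.ofFinite _ G.finV)) =
      fun c => {[G.fin c]} := by
    funext c
    unfold ET0L.part
    rw [if_pos (@Finset.mem_univ _ (@Fintype.ofFinite _ G.finV) _)]
    rfl
  rw [this]
  exact Rw.map_iff

theorem ET0L.dinv_step (G : ET0L α) {z z' : G.DP × List G.DN}
    (hz : G.DInv z.1 z.2) (h : G.toProg.Step z z') : G.DInv z'.1 z'.2 := by
  obtain ⟨p, u⟩ := z
  obtain ⟨p', u'⟩ := z'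
  obtain ⟨e, he, he', hu⟩ := h
  simp only at he he' hu hz ⊢
  subst he
  subst he'
  rcases e with ⟨b, j⟩ | ⟨x, hx⟩ | ⟨b, i⟩ | b
  · obtain ⟨v, hv, rfl⟩ := hz
    refine ⟨v, hv, ?_⟩
    rw [ET0L.part_empty]
    exact hu.eq_of_fixed fun c _ => rfl
  · obtain ⟨b, j, S, c⟩ := x
    obtain ⟨v, hv, hvu⟩ := hz
    refine ⟨v, hv, ?_⟩
    have := hvu.comp hu
    rw [← ET0L.part_insert G b j S c hx]
    exact this
  · obtain ⟨v, hv, hvu⟩ := hz
    have hu' : u' = u := hu.eq_of_fixed fun c _ => rfl
    obtain ⟨v', hv', rfl⟩ := (ET0L.part_univ_some G b i v u).1 hvu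
    exact ⟨v', hv.tail ⟨i, hv'⟩, hu'⟩
  · obtain ⟨v, hv, hvu⟩ := hz
    have hu' : u' = u := hu.eq_of_fixed fun c _ => rfl
    exact ⟨v, hv, hu'.trans ((ET0L.part_univ_none G b v u).1 hvu)⟩

theorem ET0L.dinv_all (G : ET0L α) {p : G.DP} {u : List G.DN}
    (h : G.toProg.Reach p u) : G.DInv p u := by
  unfold Prog.Reach at h
  have key : ∀ z : G.DP × List G.DN,
      Relation.ReflTransGen G.toProg.Step (G.toProg.s, G.toProg.ω) z → G.DInv z.1 z.2 := by
    intro z hz
    induction hz with
    | refl => exact ⟨G.ω, Relation.ReflTransGen.refl, rfl⟩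
    | tail _ hs ih => exact ET0L.dinv_step G ih hs
  exact key _ h

theorem ET0L.good (G : ET0L α) : G.toProg.Good := by
  intro u hu c hc e
  obtain ⟨v, _, rfl⟩ := ET0L.dinv_all G (p := none) hu
  obtain ⟨d, _, rfl⟩ := List.mem_map.1 hc
  rcases e with _ | x | _
  · rfl
  · show G.dact _ _ _ _ = _
    unfold ET0L.dact
    rw [if_neg (G.fin_ne _ _ _)]
    rfl
  · rfl

theorem ET0L.fin_eq (G : ET0L α) (c : G.V) (a : α) :
    G.fin c = some (Sum.inr a) ↔ c = G.ι a := by
  unfold ET0L.fin
  constructor
  · intro h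
    split_ifs at h with h1
    simp only [Option.some.injEq, Sum.inr.injEq] at h
    rw [← h]; exact h1.choose_spec.symm
  · rintro rfl
    have h1 : ∃ a', G.ι a' = G.ι a := ⟨a, rfl⟩
    rw [dif_pos h1]
    simp only [Option.some.injEq, Sum.inr.injEq]
    exact G.ι_inj h1.choose_spec

theorem ET0L.reach_part (G : ET0L α) (b : Bool) (j : Option G.I) (v : List G.V)
    (h : G.toProg.Reach (some (b, none)) (v.map (ET0L.sd b))) (S : Finset G.V) :
    ∀ u, Rw (G.part b j S) v u → G.toProg.Reach (some (b, some (j, S))) u := by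
  induction S using Finset.induction_on with
  | empty =>
    intro u hu
    rw [ET0L.part_empty] at hu
    refine Relation.ReflTransGen.tail h ⟨Sum.inl (b, j), rfl, rfl, ?_⟩
    rw [hu]
    exact Rw.of_fixed fun c _ => rfl
  | insert c S hc ih =>
    intro u hu
    rw [← ET0L.part_insert G b j S c hc] at hu
    obtain ⟨u₁, h₁, h₂⟩ := hu.comp_inv
    exact Relation.ReflTransGen.tail (ih u₁ h₁)
      ⟨Sum.inr (Sum.inl ⟨(b, j, S, c), hc⟩), rfl, rfl, h₂⟩

theorem ET0L.reach_all (G : ET0L α) {v : List G.V}
    (h : Relation.ReflTransGen G.Step G.ω v) :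
    ∃ b, G.toProg.Reach (some (b, none)) (v.map (ET0L.sd b)) := by
  induction h with
  | refl => exact ⟨false, Relation.ReflTransGen.refl⟩
  | @tail v v' _ hs ih =>
    obtain ⟨b, hb⟩ := ih
    obtain ⟨i, hi⟩ := hs
    refine ⟨!b, ?_⟩
    have h1 := ET0L.reach_part G b (some i) v hb
      (@Finset.univ _ (@Fintype.ofFinite _ G.finV)) (v'.map (ET0L.sd (!b)))
      ((ET0L.part_univ_some G b i v _).2 ⟨v', hi, rfl⟩)
    exact Relation.ReflTransGen.tail h1
      ⟨Sum.inr (Sum.inr (Sum.inl (b, i))), rfl, rfl, Rw.of_fixed fun c _ => rfl⟩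

theorem ET0L.toProg_lang (G : ET0L α) : G.toProg.lang = G.lang := by
  ext w
  constructor
  · intro hw
    obtain ⟨v, hv, hvw⟩ := ET0L.dinv_all G (p := none) hw
    have : v = w.map G.ι := by
      have hvw' : w.map (fun a => (some (Sum.inr a) : G.DN)) = v.map G.fin := hvw
      have hlen : w.length = v.length := by
        have := congrArg List.length hvw'
        simpa using this
      apply List.ext_getElem
      · simp [hlen]
      · intro n h1 h2
        have h3 : n < w.length := by rw [hlen]; exact h1
        have h4 := List.getElem_of_eq hvw' (i := n) (by simpa using h3)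
        simp only [List.getElem_map] at h4
        rw [List.getElem_map]
        exact (G.fin_eq _ _).1 h4.symm
    show Relation.ReflTransGen G.Step G.ω (w.map G.ι)
    rw [← this]; exact hv
  · intro hw
    have hw' : Relation.ReflTransGen G.Step G.ω (w.map G.ι) := hw
    obtain ⟨b, hb⟩ := ET0L.reach_all G hw'
    have h1 := ET0L.reach_part G b none _ hb
      (@Finset.univ _ (@Fintype.ofFinite _ G.finV)) ((w.map G.ι).map G.fin)
      ((ET0L.part_univ_none G b _ _).2 rfl)
    have h2 : (w.map G.ι).map G.fin = w.map G.toProg.ι := by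
      rw [List.map_map]
      apply List.map_congr_left
      intro a _
      exact (G.fin_eq _ _).2 rfl
    show G.toProg.Reach none (w.map G.toProg.ι)
    rw [← h2]
    exact Relation.ReflTransGen.tail h1
      ⟨Sum.inr (Sum.inr (Sum.inr b)), rfl, rfl, Rw.of_fixed fun c _ => rfl⟩

end

/-- Every ET0L language is generated by a 3-restricted ET0L system. -/
theorem isET0Lk_three {L : Set (List α)} (h : IsET0L L) : IsET0Lk 3 L := by
  obtain ⟨G, rfl⟩ := h
  exact ⟨G.toProg.toET, G.toProg.restricted,
    (Prog.lang_eq G.good).trans G.toProg_lang⟩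

end Pool.Agent.Y553.ETL
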