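import Mathlib

/-!
# Extended tabled interactionless Lindenmayer systems (ET0L systems)

Definitions of the problem `MP_4de4a9_lc` and elementary facts on parallel rewriting.
-/

namespace Pool.Agent.Y553.ETL

/-- `Rw P v u`: the word `u` arises from the word `v` by replacing all letter occurrences of `v`
simultaneously and independently, an occurrence of `c` by some word of `P c`. -/
inductive Rw {α β : Type} (P : α → Set (List β)) : List α → List β → Prop
  | nil : Rw P [] []
  | cons {c : α} {v : List α} {w u : List β} :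
      w ∈ P c → Rw P v u → Rw P (c :: v) (w ++ u)

/-- An ET0L system with terminal alphabet `α`: a finite alphabet `V` which contains (a copy of)
the terminal alphabet through the injection `ι`, a finite nonempty family of tables `h i` (each
assigns to every letter a finite nonempty set of words), and a nonempty axiom `ω`. -/
structure ET0L (α : Type) where
  V : Type
  finV : Finite V
  ι : α → V
  ι_inj : Function.Injective ι
  I : Type
  finI : Finite I
  neI : Nonempty I
  h : I → V → Set (List V)
  h_fin : ∀ i c, (h i c).Finite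
  h_ne : ∀ i c, (h i c).Nonempty
  ω : List V
  ω_ne : ω ≠ []

variable {α : Type}

/-- A derivation step: apply one table to the whole word. -/
def ET0L.Step (G : ET0L α) (v u : List G.V) : Prop := ∃ i, Rw (G.h i) v u

/-- The generated language: all terminal words derivable from the axiom. -/
def ET0L.lang (G : ET0L α) : Set (List α) :=
  {w | Relation.ReflTransGen G.Step G.ω (w.map G.ι)}

/-- `G` is `k`-restricted: in every table at most `k` letters `c` have `h(c) ≠ {c}`. -/
def ET0L.Restricted (G : ET0L α) (k : ℕ) : Prop :=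
  ∀ i, {c | G.h i c ≠ {[c]}}.ncard ≤ k

/-- The language `L` is generated by some ET0L system. -/
def IsET0L (L : Set (List α)) : Prop := ∃ G : ET0L α, G.lang = L

/-- The language `L` is generated by some `k`-restricted ET0L system. -/
def IsET0Lk (k : ℕ) (L : Set (List α)) : Prop := ∃ G : ET0L α, G.Restricted k ∧ G.lang = L

/-! ### Facts on parallel rewriting -/

section Rw
variable {α β γ : Type}

theorem Rw.nil_inv {P : α → Set (List β)} {u : List β} (h : Rw P [] u) : u = [] := by
  cases h; rfl

theorem Rw.cons_inv {P : α → Set (List β)} {c : α} {v : List α} {u : List β}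
    (h : Rw P (c :: v) u) : ∃ w u', w ∈ P c ∧ Rw P v u' ∧ u = w ++ u' := by
  cases h with
  | cons hw hv => exact ⟨_, _, hw, hv, rfl⟩

theorem Rw.append {P : α → Set (List β)} {v₁ v₂ : List α} {u₁ u₂ : List β}
    (h₁ : Rw P v₁ u₁) (h₂ : Rw P v₂ u₂) : Rw P (v₁ ++ v₂) (u₁ ++ u₂) := by
  induction h₁ with
  | nil => simpa using h₂
  | cons hw _ ih => rw [List.cons_append, List.append_assoc]; exact Rw.cons hw ih

theorem Rw.append_inv {P : α → Set (List β)} {v₁ v₂ : List α} {u : List β}
    (h : Rw P (v₁ ++ v₂) u) : ∃ u₁ u₂, Rw P v₁ u₁ ∧ Rw P v₂ u₂ ∧ u = u₁ ++ u₂ := by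
  induction v₁ generalizing u with
  | nil => exact ⟨[], u, Rw.nil, by simpa using h, by simp⟩
  | cons c v ih =>
    obtain ⟨w, u', hw, hu', rfl⟩ := Rw.cons_inv h
    obtain ⟨u₁, u₂, h₁, h₂, rfl⟩ := ih hu'
    exact ⟨w ++ u₁, u₂, Rw.cons hw h₁, h₂, by simp⟩

theorem Rw.single {P : α → Set (List β)} {c : α} {w : List β} (h : w ∈ P c) : Rw P [c] w := by
  have := Rw.cons h (Rw.nil (P := P))
  simpa using this

theorem Rw.single_inv {P : α → Set (List β)} {c : α} {w : List β} (h : Rw P [c] w) :
    w ∈ P c := by
  obtain ⟨w, u', hw, hu', rfl⟩ := Rw.cons_inv h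
  rw [Rw.nil_inv hu']
  simpa using hw

theorem Rw.mono {P Q : α → Set (List β)} {v : List α} {u : List β} (h : Rw P v u)
    (hPQ : ∀ c ∈ v, P c ⊆ Q c) : Rw Q v u := by
  induction h with
  | nil => exact Rw.nil
  | cons hw _ ih =>
    exact Rw.cons (hPQ _ (by simp) hw) (ih fun c hc => hPQ c (by simp [hc]))

theorem Rw.congr {P Q : α → Set (List β)} {v : List α} {u : List β}
    (hPQ : ∀ c ∈ v, P c = Q c) : Rw P v u ↔ Rw Q v u :=
  ⟨fun h => h.mono fun c hc => (hPQ c hc).subset, fun h => h.mono fun c hc => (hPQ c hc).superset⟩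

theorem Rw.comp {P : α → Set (List β)} {Q : β → Set (List γ)} {v : List α} {u : List β}
    {t : List γ} (h : Rw P v u) (h' : Rw Q u t) :
    Rw (fun c => {s | ∃ w ∈ P c, Rw Q w s}) v t := by
  induction h generalizing t with
  | nil => rw [Rw.nil_inv h']; exact Rw.nil
  | cons hw _ ih =>
    obtain ⟨u₁, u₂, h₁, h₂, rfl⟩ := Rw.append_inv h'
    exact Rw.cons ⟨_, hw, h₁⟩ (ih h₂)

theorem Rw.comp_inv {P : α → Set (List β)} {Q : β → Set (List γ)} {v : List α}
    {t : List γ} (h : Rw (fun c => {s | ∃ w ∈ P c, Rw Q w s}) v t) :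
    ∃ u, Rw P v u ∧ Rw Q u t := by
  induction h with
  | nil => exact ⟨[], Rw.nil, Rw.nil⟩
  | cons hw _ ih =>
    obtain ⟨w, hw, hw'⟩ := hw
    obtain ⟨u, h₁, h₂⟩ := ih
    exact ⟨w ++ u, Rw.cons hw h₁, hw'.append h₂⟩

theorem Rw.id (v : List α) : Rw (fun c => ({[c]} : Set (List α))) v v := by
  induction v with
  | nil => exact Rw.nil
  | cons c v ih => exact Rw.cons (w := [c]) rfl ih

theorem Rw.of_fixed {P : α → Set (List α)} {v : List α} (hP : ∀ c ∈ v, P c = {[c]}) :
    Rw P v v := (Rw.congr hP).2 (Rw.id v)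

theorem Rw.eq_of_fixed {P : α → Set (List α)} {v u : List α} (h : Rw P v u)
    (hP : ∀ c ∈ v, P c = {[c]}) : u = v := by
  induction h with
  | nil => rfl
  | @cons c v w u hw _ ih =>
    have h1 : w = [c] := by
      have := hP c (by simp)
      rw [this] at hw; exact hw
    have h2 : u = v := ih fun d hd => hP d (by simp [hd])
    rw [h1, h2]; rfl

/-- Letterwise deterministic rewriting. -/
theorem Rw.map_iff {f : α → β} {v : List α} {u : List β} :
    Rw (fun c => ({[f c]} : Set (List β))) v u ↔ u = v.map f := by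
  constructor
  · intro h
    induction h with
    | nil => rfl
    | cons hw _ ih =>
      rw [Set.mem_singleton_iff.1 hw, ih]; rfl
  · rintro rfl
    induction v with
    | nil => exact Rw.nil
    | cons c v ih => exact Rw.cons (w := [f c]) rfl ih

theorem Rw.map_left {P : β → Set (List γ)} {f : α → β} {v : List α} {u : List γ} :
    Rw P (v.map f) u ↔ Rw (fun c => P (f c)) v u := by
  constructor
  · intro h
    induction v generalizing u with
    | nil => rw [Rw.nil_inv h]; exact Rw.nil
    | cons c v ih =>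
      obtain ⟨w, u', hw, hu', rfl⟩ := Rw.cons_inv h
      exact Rw.cons hw (ih hu')
  · intro h
    induction h with
    | nil => exact Rw.nil
    | cons hw _ ih => exact Rw.cons hw ih

theorem Rw.map_right {P : α → Set (List β)} {f : β → γ} {v : List α} {u : List γ} :
    Rw (fun c => (List.map f) '' P c) v u ↔ ∃ u₀, Rw P v u₀ ∧ u = u₀.map f := by
  constructor
  · intro h
    induction h with
    | nil => exact ⟨[], Rw.nil, rfl⟩
    | cons hw _ ih =>
      obtain ⟨w₀, hw₀, rfl⟩ := hw
      obtain ⟨u₀, hu₀, rfl⟩ := ih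
      exact ⟨w₀ ++ u₀, Rw.cons hw₀ hu₀, by simp⟩
  · rintro ⟨u₀, hu₀, rfl⟩
    induction hu₀ with
    | nil => exact Rw.nil
    | cons hw _ ih =>
      rw [List.map_append]
      exact Rw.cons ⟨_, hw, rfl⟩ ih

/-- A letter which is only rewritten to itself never disappears. -/
theorem Rw.mem_of_fixed {P : α → Set (List α)} {v u : List α} (h : Rw P v u) {d : α}
    (hd : P d = {[d]}) (hv : d ∈ v) : d ∈ u := by
  induction h with
  | nil => simp at hv
  | @cons c v w u hw _ ih =>
    rcases List.mem_cons.1 hv with rfl | hv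
    · rw [hd] at hw
      rw [Set.mem_singleton_iff.1 hw]; simp
    · simp [ih hv]

/-- If some letter of the word has to be rewritten to a word containing `d`, then `d` appears. -/
theorem Rw.mem_of_mem {P : α → Set (List β)} {v : List α} {u : List β} (h : Rw P v u) {c : α}
    {d : β} (hd : ∀ w ∈ P c, d ∈ w) (hv : c ∈ v) : d ∈ u := by
  induction h with
  | nil => simp at hv
  | @cons c' v w u hw _ ih =>
    rcases List.mem_cons.1 hv with rfl | hv
    · simp [hd w hw]
    · simp [ih hv]

end Rw

end Pool.Agent.Y553.ETL
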