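import Pool.Agent.Y553.ETL.Defs

/-!
# Programmed rewriting of one letter at a time, and its simulation by three active letters

A *program* has finitely many phases; each of its edges leads from a phase to another one and
rewrites (in parallel, everywhere in the word) one letter. The simulation stores the phase `p` in
the word by the set of the tokens of all *other* phases.
-/

namespace Pool.Agent.Y553.ETL

/-- Programs over the terminal alphabet `α`. -/
structure Prog (α : Type) where
  N : Type
  finN : Finite N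
  ι : α → N
  ι_inj : Function.Injective ι
  P : Type
  finP : Finite P
  E : Type
  finE : Finite E
  src : E → P
  dst : E → P
  act : E → N → Set (List N)
  act_fin : ∀ e c, (act e c).Finite
  act_ne : ∀ e c, (act e c).Nonempty
  x : E → N
  act_x : ∀ e c, c ≠ x e → act e c = {[c]}
  s : P
  f : P
  src_ne : ∀ e, src e ≠ f
  loop : ∀ e, src e ≠ dst e
  ω : List N
  ω_ne : ω ≠ []

variable {α : Type}

/-- One step of a program. -/
def Prog.Step (Q : Prog α) (z z' : Q.P × List Q.N) : Prop :=
  ∃ e, Q.src e = z.1 ∧ Q.dst e = z'.1 ∧ Rw (Q.act e) z.2 z'.2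

def Prog.Reach (Q : Prog α) (p : Q.P) (u : List Q.N) : Prop :=
  Relation.ReflTransGen Q.Step (Q.s, Q.ω) (p, u)

/-- The letters of all words which are reachable in the final phase are inert. -/
def Prog.Good (Q : Prog α) : Prop :=
  ∀ u, Q.Reach Q.f u → ∀ c ∈ u, ∀ e, Q.act e c = {[c]}

def Prog.lang (Q : Prog α) : Set (List α) := {w | Q.Reach Q.f (w.map Q.ι)}

section
open Classical

/-- Proper letters, tokens (`some (inr p)`), and the dead letter `none`. -/
abbrev Prog.V (Q : Prog α) : Type := Option (Q.N ⊕ Q.P)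

abbrev Prog.lt {Q : Prog α} (c : Q.N) : Q.V := some (Sum.inl c)
abbrev Prog.tk {Q : Prog α} (p : Q.P) : Q.V := some (Sum.inr p)

/-- The tables of the simulating system. -/
noncomputable def Prog.tab (Q : Prog α) : Q.E ⊕ Q.P → Q.V → Set (List Q.V)
  | Sum.inl e, some (Sum.inl c) => (List.map Prog.lt) '' Q.act e c
  | Sum.inl e, some (Sum.inr r) =>
      if r = Q.dst e then {[Prog.tk (Q.src e)]} else if r = Q.src e then {[none]}
      else {[Prog.tk r]}
  | Sum.inl _, none => {[none]}
  | Sum.inr _, some (Sum.inl c) => {[Prog.lt c]}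
  | Sum.inr q, some (Sum.inr r) =>
      if r = Q.f then {[none]} else if r = q then {[]} else {[Prog.tk r]}
  | Sum.inr _, none => {[none]}

noncomputable def Prog.toks (Q : Prog α) (p : Q.P) : List Q.P :=
  haveI := Q.finP
  haveI := Fintype.ofFinite Q.P
  (Finset.univ.erase p).toList

theorem Prog.toks_nodup (Q : Prog α) (p : Q.P) : (Q.toks p).Nodup := by
  unfold Prog.toks; exact Finset.nodup_toList _

theorem Prog.mem_toks (Q : Prog α) (p q : Q.P) : q ∈ Q.toks p ↔ q ≠ p := by
  unfold Prog.toks; simp

/-- The simulating ET0L system. -/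
noncomputable def Prog.toET (Q : Prog α) : ET0L α where
  V := Q.V
  finV := by
    haveI := Q.finN; haveI := Q.finP
    infer_instance
  ι := fun a => Prog.lt (Q.ι a)
  ι_inj := by
    intro a b h
    simp only [Option.some.injEq, Sum.inl.injEq] at h
    exact Q.ι_inj h
  I := Q.E ⊕ Q.P
  finI := by
    haveI := Q.finE; haveI := Q.finP
    infer_instance
  neI := ⟨Sum.inr Q.f⟩
  h := Q.tab
  h_fin := by
    rintro (e | q) (_ | c | r)
    · exact Set.finite_singleton _
    · exact (Q.act_fin e c).image _
    · simp only [Prog.tab]; split_ifs <;> exact Set.finite_singleton _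
    · exact Set.finite_singleton _
    · exact Set.finite_singleton _
    · simp only [Prog.tab]; split_ifs <;> exact Set.finite_singleton _
  h_ne := by
    rintro (e | q) (_ | c | r)
    · exact Set.singleton_nonempty _
    · exact (Q.act_ne e c).image _
    · simp only [Prog.tab]; split_ifs <;> exact Set.singleton_nonempty _
    · exact Set.singleton_nonempty _
    · exact Set.singleton_nonempty _
    · simp only [Prog.tab]; split_ifs <;> exact Set.singleton_nonempty _
  ω := Q.ω.map Prog.lt ++ (Q.toks Q.s).map Prog.tk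
  ω_ne := by
    intro h
    have := (List.append_eq_nil_iff.1 h).1
    exact Q.ω_ne (List.map_eq_nil_iff.1 this)

theorem Prog.restricted (Q : Prog α) : Q.toET.Restricted 3 := by
  haveI := Q.finN; haveI := Q.finP
  rintro (e | q)
  · have hsub : {c | Q.tab (Sum.inl e) c ≠ {[c]}} ⊆
        ({Prog.lt (Q.x e), Prog.tk (Q.dst e), Prog.tk (Q.src e)} : Set Q.V) := by
      rintro (_ | c | r) hc
      · exact absurd rfl hc
      · by_cases h : c = Q.x e
        · left; rw [h]
        · exfalso
          apply hc
          simp only [Prog.tab]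
          rw [Q.act_x e c h]; simp
      · by_cases h1 : r = Q.dst e
        · right; left; rw [h1]
        · by_cases h2 : r = Q.src e
          · right; right; rw [h2]; rfl
          · exfalso
            apply hc
            simp only [Prog.tab, if_neg h1, if_neg h2]
    refine (Set.ncard_le_ncard hsub (Set.toFinite _)).trans ?_
    refine (Set.ncard_insert_le _ _).trans ?_
    refine Nat.succ_le_succ ?_
    refine (Set.ncard_insert_le _ _).trans ?_
    simp
  · have hsub : {c | Q.tab (Sum.inr q) c ≠ {[c]}} ⊆
        ({Prog.tk Q.f, Prog.tk q} : Set Q.V) := by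
      rintro (_ | c | r) hc
      · exact absurd rfl hc
      · exact absurd rfl hc
      · by_cases h1 : r = Q.f
        · left; rw [h1]
        · by_cases h2 : r = q
          · right; rw [h2]; rfl
          · exfalso
            apply hc
            simp only [Prog.tab, if_neg h1, if_neg h2]
    refine (Set.ncard_le_ncard hsub (Set.toFinite _)).trans ?_
    refine (Set.ncard_insert_le _ _).trans ?_
    simp

/-- The derivation steps of the simulating system. -/
def Prog.TStep (Q : Prog α) (z z' : List Q.V) : Prop := ∃ i, Rw (Q.tab i) z z'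

/-- The axiom of the simulating system. -/
noncomputable def Prog.ax (Q : Prog α) : List Q.V :=
  Q.ω.map Prog.lt ++ (Q.toks Q.s).map Prog.tk

/-- The invariant of the simulation. -/
def Prog.Inv (Q : Prog α) (z : List Q.V) : Prop :=
  none ∈ z ∨ ∃ (p : Q.P) (u : List Q.N) (t : List Q.P),
    z = u.map Prog.lt ++ t.map Prog.tk ∧ Q.Reach p u ∧
    ((t.Nodup ∧ ∀ q, q ∈ t ↔ q ≠ p) ∨ (p = Q.f ∧ Q.f ∉ t))

theorem Prog.rw_edge {Q : Prog α} {e : Q.E} {u : List Q.N} {t : List Q.P} {z : List Q.V}
    (h : Rw (Q.tab (Sum.inl e)) (u.map Prog.lt ++ t.map Prog.tk) z) (hn : none ∉ z) :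
    Q.src e ∉ t ∧ ∃ u', Rw (Q.act e) u u' ∧
      z = u'.map Prog.lt ++
        (t.map fun r => if r = Q.dst e then Q.src e else r).map Prog.tk := by
  obtain ⟨z₁, z₂, h₁, h₂, rfl⟩ := Rw.append_inv h
  have hs : Q.src e ∉ t := by
    intro hs
    apply hn
    rw [List.mem_append]; right
    refine Rw.mem_of_mem h₂ (c := Prog.tk (Q.src e)) (d := none) ?_ (List.mem_map_of_mem hs)
    intro w hw
    simp only [Prog.tab, if_neg (Q.loop e), if_true] at hw
    rw [Set.mem_singleton_iff.1 hw]; simp
  refine ⟨hs, ?_⟩
  rw [Rw.map_left] at h₁ h₂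
  obtain ⟨u', hu', rfl⟩ := Rw.map_right.1 h₁
  refine ⟨u', hu', ?_⟩
  congr 1
  rw [List.map_map]
  refine Rw.map_iff.1 (h₂.mono ?_)
  intro r hr
  have hr' : r ≠ Q.src e := fun h => hs (h ▸ hr)
  simp only [Prog.tab, Function.comp_apply]
  by_cases h1 : r = Q.dst e
  · rw [if_pos h1, if_pos h1]
  · rw [if_neg h1, if_neg h1, if_neg hr']

theorem Prog.rw_edge' {Q : Prog α} {e : Q.E} {u u' : List Q.N} {t : List Q.P}
    (hs : Q.src e ∉ t) (hu : Rw (Q.act e) u u') :
    Rw (Q.tab (Sum.inl e)) (u.map Prog.lt ++ t.map Prog.tk)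
      (u'.map Prog.lt ++
        (t.map fun r => if r = Q.dst e then Q.src e else r).map Prog.tk) := by
  refine Rw.append ?_ ?_
  · rw [Rw.map_left]
    exact Rw.map_right.2 ⟨u', hu, rfl⟩
  · rw [Rw.map_left, List.map_map]
    refine (Rw.map_iff.2 rfl).mono ?_
    intro r hr
    have hr' : r ≠ Q.src e := fun h => hs (h ▸ hr)
    simp only [Prog.tab, Function.comp_apply]
    by_cases h1 : r = Q.dst e
    · rw [if_pos h1, if_pos h1]
    · rw [if_neg h1, if_neg h1, if_neg hr']

theorem filter_rw {Q : Prog α} {q : Q.P} {t : List Q.P} (hf : Q.f ∉ t) {z : List Q.V} :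
    Rw (Q.tab (Sum.inr q)) (t.map Prog.tk) z ↔ z = (t.filter (· ≠ q)).map Prog.tk := by
  induction t generalizing z with
  | nil =>
    constructor
    · intro h; rw [Rw.nil_inv h]; rfl
    · rintro rfl; exact Rw.nil
  | cons r t ih =>
    have hf' : Q.f ∉ t := fun h => hf (by simp [h])
    have hr : r ≠ Q.f := fun h => hf (by simp [h])
    constructor
    · intro h
      obtain ⟨w, u', hw, hu', rfl⟩ := Rw.cons_inv h
      rw [(ih hf').1 hu']
      simp only [Prog.tab, if_neg hr] at hw
      by_cases h1 : r = q
      · rw [if_pos h1] at hw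
        rw [Set.mem_singleton_iff.1 hw]
        simp [h1]
      · rw [if_neg h1] at hw
        rw [Set.mem_singleton_iff.1 hw]
        simp [h1]
    · rintro rfl
      by_cases h1 : r = q
      · have : ((r :: t).filter (· ≠ q)).map (Prog.tk (Q := Q)) =
            [] ++ (t.filter (· ≠ q)).map Prog.tk := by simp [h1]
        rw [this, List.map_cons]
        refine Rw.cons ?_ ((ih hf').2 rfl)
        simp only [Prog.tab, if_neg hr, if_pos h1]
        rfl
      · have : ((r :: t).filter (· ≠ q)).map (Prog.tk (Q := Q)) =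
            [Prog.tk r] ++ (t.filter (· ≠ q)).map Prog.tk := by simp [h1]
        rw [this, List.map_cons]
        refine Rw.cons ?_ ((ih hf').2 rfl)
        simp only [Prog.tab, if_neg hr, if_neg h1]
        rfl

theorem Prog.inv_step {Q : Prog α} (hQ : Q.Good) {z z' : List Q.V} (hz : Q.Inv z)
    (h : ∃ i, Rw (Q.tab i) z z') : Q.Inv z' := by
  obtain ⟨i, hi⟩ := h
  unfold Prog.Inv
  by_cases hn : none ∈ z'
  · exact Or.inl hn
  rcases hz with hz | ⟨p, u, t, rfl, hr, hpt⟩
  · exfalso
    apply hn
    refine hi.mem_of_fixed ?_ hz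
    rcases i with e | q <;> rfl
  right
  rcases i with e | q
  · obtain ⟨hs, u', hu', rfl⟩ := Prog.rw_edge hi hn
    rcases hpt with ⟨hnd, ht⟩ | ⟨rfl, hf⟩
    · have hp : Q.src e = p := by
        by_contra h; exact hs ((ht _).2 h)
      refine ⟨Q.dst e, u', _, rfl, hr.tail ⟨e, hp, rfl, hu'⟩, Or.inl ⟨?_, ?_⟩⟩
      · refine hnd.map_on ?_
        intro a ha b hb hab
        have ha' : a ≠ Q.src e := fun h => hs (h ▸ ha)
        have hb' : b ≠ Q.src e := fun h => hs (h ▸ hb)
        by_cases h1 : a = Q.dst e
        · by_cases h2 : b = Q.dst e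
          · rw [h1, h2]
          · simp only [if_pos h1, if_neg h2] at hab; exact absurd hab.symm hb'
        · by_cases h2 : b = Q.dst e
          · simp only [if_neg h1, if_pos h2] at hab; exact absurd hab ha'
          · simpa only [if_neg h1, if_neg h2] using hab
      · intro q
        rw [List.mem_map]
        constructor
        · rintro ⟨r, hr', rfl⟩
          by_cases h1 : r = Q.dst e
          · rw [if_pos h1]; exact Q.loop e
          · rw [if_neg h1]; exact h1
        · intro hq
          by_cases h1 : q = Q.src e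
          · refine ⟨Q.dst e, (ht _).2 ?_, ?_⟩
            · rw [← hp]; exact (Q.loop e).symm
            · rw [if_pos rfl, h1]
          · refine ⟨q, (ht _).2 ?_, ?_⟩
            · rw [← hp]; exact h1
            · rw [if_neg hq]
    · have hu : u' = u := hu'.eq_of_fixed fun c hc => hQ u hr c hc e
      subst hu
      refine ⟨Q.f, u', _, rfl, hr, Or.inr ⟨rfl, ?_⟩⟩
      rw [List.mem_map]
      rintro ⟨r, hr', h⟩
      by_cases h1 : r = Q.dst e
      · rw [if_pos h1] at h; exact Q.src_ne e h
      · rw [if_neg h1] at h; exact hf (h ▸ hr')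
  · obtain ⟨z₁, z₂, h₁, h₂, rfl⟩ := Rw.append_inv hi
    have hf : Q.f ∉ t := by
      intro hf
      apply hn
      rw [List.mem_append]; right
      refine Rw.mem_of_mem h₂ (c := Prog.tk Q.f) (d := none) ?_ (List.mem_map_of_mem hf)
      intro w hw
      simp only [Prog.tab, if_true] at hw
      rw [Set.mem_singleton_iff.1 hw]; simp
    have hp : p = Q.f := by
      rcases hpt with ⟨_, ht⟩ | ⟨hp, _⟩
      · by_contra h; exact hf ((ht _).2 fun h' => h h'.symm)
      · exact hp
    subst hp
    rw [(filter_rw hf).1 h₂]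
    rw [Rw.map_left] at h₁
    have : z₁ = u.map Prog.lt := Rw.map_iff.1 h₁
    refine ⟨Q.f, u, _, by rw [this], hr, Or.inr ⟨rfl, ?_⟩⟩
    intro h; exact hf (List.mem_of_mem_filter h)

theorem Prog.inv_all {Q : Prog α} (hQ : Q.Good) {z : List Q.V}
    (h : Relation.ReflTransGen Q.TStep Q.ax z) : Q.Inv z := by
  induction h with
  | refl =>
    unfold Prog.Inv
    right
    exact ⟨Q.s, Q.ω, Q.toks Q.s, rfl, Relation.ReflTransGen.refl,
      Or.inl ⟨Q.toks_nodup _, Q.mem_toks _⟩⟩
  | tail _ hs ih => exact Prog.inv_step hQ ih hs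

theorem Prog.complete {Q : Prog α} {p : Q.P} {u : List Q.N} (h : Q.Reach p u) :
    ∃ t : List Q.P, (t.Nodup ∧ ∀ q, q ∈ t ↔ q ≠ p) ∧
      Relation.ReflTransGen Q.TStep Q.ax (u.map Prog.lt ++ t.map Prog.tk) := by
  unfold Prog.Reach at h
  generalize hz : (p, u) = z at h
  induction h generalizing p u with
  | refl =>
    cases hz
    exact ⟨Q.toks Q.s, ⟨Q.toks_nodup _, Q.mem_toks _⟩, Relation.ReflTransGen.refl⟩
  | @tail y z _ hs ih =>
    subst hz
    obtain ⟨e, he, he', hu⟩ := hs
    obtain ⟨p₀, u₀⟩ := y
    simp only at he he' hu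
    obtain ⟨t, ⟨hnd, ht⟩, hd⟩ := ih rfl
    have hst : Q.src e ∉ t := by
      rw [ht]; exact fun h => h he
    refine ⟨t.map fun r => if r = Q.dst e then Q.src e else r, ⟨?_, ?_⟩,
      hd.tail ⟨Sum.inl e, Prog.rw_edge' hst hu⟩⟩
    · refine hnd.map_on ?_
      intro a ha b hb hab
      have ha' : a ≠ Q.src e := fun h => hst (h ▸ ha)
      have hb' : b ≠ Q.src e := fun h => hst (h ▸ hb)
      by_cases h1 : a = Q.dst e
      · by_cases h2 : b = Q.dst e
        · rw [h1, h2]
        · simp only [if_pos h1, if_neg h2] at hab; exact absurd hab.symm hb'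
      · by_cases h2 : b = Q.dst e
        · simp only [if_neg h1, if_pos h2] at hab; exact absurd hab ha'
        · simpa only [if_neg h1, if_neg h2] using hab
    · intro q
      rw [List.mem_map, ← he']
      constructor
      · rintro ⟨r, hr', rfl⟩
        by_cases h1 : r = Q.dst e
        · rw [if_pos h1]; exact Q.loop e
        · rw [if_neg h1]; exact h1
      · intro hq
        by_cases h1 : q = Q.src e
        · refine ⟨Q.dst e, (ht _).2 ?_, ?_⟩
          · rw [← he]; exact (Q.loop e).symm
          · rw [if_pos rfl, h1]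
        · refine ⟨q, (ht _).2 ?_, ?_⟩
          · rw [← he]; exact h1
          · rw [if_neg hq]

theorem Prog.erase {Q : Prog α} (u : List Q.N) (n : ℕ) (t : List Q.P) (hn : t.length ≤ n)
    (hf : Q.f ∉ t) :
    Relation.ReflTransGen Q.TStep (u.map Prog.lt ++ t.map Prog.tk) (u.map Prog.lt) := by
  induction n generalizing t with
  | zero =>
    have : t = [] := List.length_eq_zero_iff.1 (Nat.le_zero.1 hn)
    subst this
    simpa using Relation.ReflTransGen.refl
  | succ n ih =>
    rcases t with _ | ⟨r, t⟩
    · simpa using Relation.ReflTransGen.refl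
    · have hstep : Q.TStep (u.map Prog.lt ++ (r :: t).map Prog.tk)
          (u.map Prog.lt ++ ((r :: t).filter (· ≠ r)).map Prog.tk) := by
        refine ⟨Sum.inr r, Rw.append ?_ ((filter_rw hf).2 rfl)⟩
        rw [Rw.map_left]
        exact Rw.map_iff.2 rfl
      refine Relation.ReflTransGen.head hstep (ih _ ?_ ?_)
      · have h1 : (r :: t).filter (· ≠ r) = t.filter (· ≠ r) := by simp
        rw [h1]
        have := List.length_filter_le (fun x => decide (x ≠ r)) t
        simp only [List.length_cons] at hn
        omega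
      · intro h; exact hf (List.mem_of_mem_filter h)

theorem Prog.lang_eq {Q : Prog α} (hQ : Q.Good) : Q.toET.lang = Q.lang := by
  ext w
  constructor
  · intro hw
    have hw' : Relation.ReflTransGen Q.TStep Q.ax (w.map fun a => Prog.lt (Q.ι a)) := hw
    rcases Prog.inv_all hQ hw' with h | ⟨p, u, t, h, hr, hpt⟩
    · obtain ⟨a, _, ha⟩ := List.mem_map.1 h
      simp at ha
    · have ht : t = [] := by
        rcases t with _ | ⟨r, t⟩
        · rfl
        · exfalso
          have : (Prog.tk r : Q.V) ∈ w.map fun a => Prog.lt (Q.ι a) := by rw [h]; simp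
          obtain ⟨a, _, ha⟩ := List.mem_map.1 this
          simp at ha
      subst ht
      have hp : p = Q.f := by
        rcases hpt with ⟨_, ht⟩ | ⟨hp, _⟩
        · by_contra h'
          exact absurd ((ht Q.f).2 fun h'' => h' h''.symm) (by simp)
        · exact hp
      subst hp
      have hu : u = w.map Q.ι := by
        have h2 : (w.map Q.ι).map (Prog.lt (Q := Q)) = u.map Prog.lt := by
          rw [List.map_map]; simpa [Function.comp_def] using h
        have hinj : Function.Injective (Prog.lt (Q := Q)) := by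
          intro a b hab
          simpa using hab
        exact ((List.map_injective_iff.2 hinj) h2).symm
      show Q.Reach Q.f (w.map Q.ι)
      rw [← hu]; exact hr
  · intro hw
    obtain ⟨t, ⟨_, ht⟩, hd⟩ := Prog.complete hw
    have hf : Q.f ∉ t := by rw [ht]; simp
    have h2 := hd.trans (Prog.erase (w.map Q.ι) t.length t le_rfl hf)
    show Relation.ReflTransGen Q.TStep Q.ax (w.map fun a => Prog.lt (Q.ι a))
    have h3 : (w.map fun a => Prog.lt (Q.ι a)) = (w.map Q.ι).map (Prog.lt (Q := Q)) := by
      rw [List.map_map]; rfl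
    rw [h3]; exact h2

end

end Pool.Agent.Y553.ETL
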